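import Pool.Agent.H5.BP.Stm

/-!
# B1: the map of degree two
-/

set_option autoImplicit false

namespace Pool.Agent.H27.BP

open Complex Metric Set Filter Topology Pool.Agent.H5.BP

/-- square roots on disks -/
lemma exists_root {x₀ : ℂ} {s : ℝ} {D : ℂ → ℂ} (hD : DifferentiableOn ℂ D (ball x₀ s))
    (h0 : ∀ x ∈ ball x₀ s, D x ≠ 0) {x₁ : ℂ} (hx₁ : x₁ ∈ ball x₀ s) {y : ℂ} (hy : y ^ 2 = D x₁) :
    ∃ S : ℂ → ℂ, DifferentiableOn ℂ S (ball x₀ s) ∧ (∀ x ∈ ball x₀ s, S x ^ 2 = D x) ∧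
      S x₁ = y := by
  have hD' : ∀ x ∈ ball x₀ s, HasDerivAt D (deriv D x) x := fun x hx =>
    ((hD x hx).differentiableAt (isOpen_ball.mem_nhds hx)).hasDerivAt
  have hq : DifferentiableOn ℂ (fun x => deriv D x / D x) (ball x₀ s) :=
    (hD.deriv isOpen_ball).div hD h0
  obtain ⟨G, hG1, hG⟩ := (hq.isExactOn_ball).with_val_at x₁ 0
  have hE : ∀ x ∈ ball x₀ s, HasDerivAt (fun x => D x * Complex.exp (-G x)) 0 x := by
    intro x hx
    refine ((hD' x hx).mul ((hG x hx).neg.cexp)).congr_deriv ?_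
    have := h0 x hx
    field_simp
    ring
  have hconst : ∀ x ∈ ball x₀ s, D x * Complex.exp (-G x) = D x₁ := by
    intro x hx
    have h1 := isOpen_ball.is_const_of_deriv_eq_zero (𝕜 := ℂ)
      (convex_ball x₀ s).isPreconnected
      (f := fun x => D x * Complex.exp (-G x)) (fun x hx => (hE x hx).differentiableAt.differentiableWithinAt)
      (fun x hx => (hE x hx).deriv) hx hx₁
    simpa [hG1] using h1
  refine ⟨fun x => y * Complex.exp (G x / 2), ?_, ?_, ?_⟩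
  · intro x hx
    exact (((hG x hx).differentiableAt.div_const 2).cexp.const_mul y).differentiableWithinAt
  · intro x hx
    have h1 := hconst x hx
    have h2 : D x = D x₁ * Complex.exp (G x) := by
      rw [← h1, mul_assoc, ← Complex.exp_add]; simp
    rw [mul_pow, hy, ← Complex.exp_nat_mul, h2]
    congr 2
    push_cast; ring
  · simp [hG1]

/-- `x (q - x)/(1 - q x)` -/
noncomputable def B0 (q : ℝ) (x : ℂ) : ℂ := x * (q - x) / (1 - q * x)

/-- its derivative -/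
noncomputable def K0 (q : ℝ) (x : ℂ) : ℂ := (q - 2 * x + q * x ^ 2) / (1 - q * x) ^ 2

lemma id1 (q : ℝ) (x : ℂ) :
    ‖(q : ℂ) - x‖ ^ 2 - ‖1 - q * x‖ ^ 2 = (‖x‖ ^ 2 - 1) * (1 - q ^ 2) := by
  simp only [Complex.sq_norm, Complex.normSq_apply, sub_re, sub_im, ofReal_re, ofReal_im, one_re,
    one_im, mul_re, mul_im]
  ring

lemma den0 {q : ℝ} (h0 : 0 < q) (h1 : q < 1) {x : ℂ} (hx : ‖x‖ ≤ 1) : (1 : ℂ) - q * x ≠ 0 := by
  intro h
  have h2 : (q : ℂ) * x = 1 := (sub_eq_zero.1 h).symm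
  have h3 := congrArg norm h2
  rw [norm_mul, Complex.norm_real, Real.norm_eq_abs, abs_of_pos h0, norm_one] at h3
  nlinarith [norm_nonneg x]

lemma B0_norm {q : ℝ} (h0 : 0 < q) (h1 : q < 1) {x : ℂ} (hx : ‖x‖ = 1) : ‖B0 q x‖ = 1 := by
  have h2 := id1 q x
  rw [hx] at h2
  have h3 : ‖(q : ℂ) - x‖ = ‖1 - q * x‖ := by
    have : ‖(q : ℂ) - x‖ ^ 2 = ‖1 - q * x‖ ^ 2 := by linarith
    exact (pow_left_inj₀ (norm_nonneg _) (norm_nonneg _) two_ne_zero).1 this
  have h4 : ‖1 - q * x‖ ≠ 0 := norm_ne_zero_iff.2 (den0 h0 h1 hx.le)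
  rw [B0, norm_div, norm_mul, hx, h3, one_mul, div_self h4]

lemma B0_deriv {q : ℝ} {x : ℂ} (hx : (1 : ℂ) - q * x ≠ 0) : HasDerivAt (B0 q) (K0 q x) x := by
  have e1 : HasDerivAt (fun x : ℂ => x * (q - x)) (1 * (q - x) + x * (-1)) x :=
    (hasDerivAt_id x).mul ((hasDerivAt_id x).const_sub _)
  have e2 : HasDerivAt (fun x : ℂ => 1 - q * x) (-(q * 1)) x :=
    ((hasDerivAt_id x).const_mul _).const_sub _
  refine (e1.div e2 hx).congr_deriv ?_
  unfold K0
  field_simp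
  ring

lemma B0_an {q : ℝ} (h0 : 0 < q) (h1 : q < 1) : AnalyticOnNhd ℂ (B0 q) (closedBall 0 1) := by
  intro x hx
  have hx' : ‖x‖ ≤ 1 := by simpa using hx
  have e1 : AnalyticAt ℂ (fun x : ℂ => x * (q - x)) x := by fun_prop
  have e2 : AnalyticAt ℂ (fun x : ℂ => 1 - q * x) x := by fun_prop
  exact e1.div e2 (den0 h0 h1 hx')

/-- roots in the disk -/
lemma root_lt {q : ℝ} (h0 : 0 < q) (h1 : q < 1) {x y : ℂ} (hy : ‖y‖ < 1)
    (h : x * (q - x) = y * (1 - q * x)) : ‖x‖ < 1 := by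
  by_contra hx
  push Not at hx
  have h2 := id1 q x
  have hq : 0 < 1 - q ^ 2 := by nlinarith
  have h3 : ‖1 - q * x‖ ^ 2 ≤ ‖(q : ℂ) - x‖ ^ 2 := by
    have : 0 ≤ (‖x‖ ^ 2 - 1) * (1 - q ^ 2) := by
      apply mul_nonneg _ hq.le
      nlinarith
    linarith
  have h4 : ‖1 - q * x‖ ≤ ‖(q : ℂ) - x‖ := le_of_sq_le_sq h3 (norm_nonneg _)
  have h5 := congrArg norm h
  rw [norm_mul, norm_mul] at h5
  have h6 : ‖(q:ℂ) - x‖ ≤ ‖x‖ * ‖(q:ℂ) - x‖ := by
    nlinarith [norm_nonneg ((q:ℂ) - x)]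
  by_cases hz : ‖1 - (q:ℂ) * x‖ = 0
  · rw [hz, mul_zero] at h5
    have h7 : ‖(q:ℂ) - x‖ = 0 := by
      rcases mul_eq_zero.1 h5 with h | h
      · linarith
      · exact h
    have h8 : (q:ℂ) - x = 0 := norm_eq_zero.1 h7
    have h9 : x = q := (sub_eq_zero.1 h8).symm
    rw [h9, Complex.norm_real, Real.norm_eq_abs, abs_of_pos h0] at hx
    linarith
  · have h7 : 0 < ‖1 - (q:ℂ) * x‖ := lt_of_le_of_ne (norm_nonneg _) (Ne.symm hz)
    nlinarith

theorem beta : S_beta := by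
  intro c hc0 hc1
  set r : ℝ := √‖c‖ with hr
  have hr2 : r ^ 2 = ‖c‖ := Real.sq_sqrt hc0.le
  have hr0 : 0 < r := Real.sqrt_pos.2 hc0
  have hr1 : r < 1 := by nlinarith
  set q : ℝ := 2 * r / (1 + ‖c‖) with hq
  have hqr : q * (1 + r ^ 2) = 2 * r := by
    rw [hq, hr2]; field_simp
  have hq0 : 0 < q := by rw [hq]; positivity
  have hq1 : q < 1 := by
    rw [hq, div_lt_one (by positivity), ← hr2]; nlinarith [sq_nonneg (1 - r)]
  have hqrC : (q : ℂ) * (1 + (r : ℂ) ^ 2) = 2 * r := by exact_mod_cast hqr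
  have hcn : c ≠ 0 := norm_pos_iff.1 hc0
  set u : ℂ := c / ‖c‖ with hu
  have hun : ‖u‖ = 1 := by
    rw [hu, norm_div, Complex.norm_real, norm_norm, div_self hc0.ne']
  set v : ℂ := (starRingEnd ℂ) u with hv
  have hvn : ‖v‖ = 1 := by rw [hv, Complex.norm_conj, hun]
  have huv : u * v = 1 := by
    rw [hv, Complex.mul_conj, Complex.normSq_eq_norm_sq, hun]; simp
  have huc : u * (r : ℂ) ^ 2 = c := by
    have : ((r : ℂ) ^ 2) = (‖c‖ : ℂ) := by exact_mod_cast congrArg (fun x : ℝ => (x : ℂ)) hr2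
    rw [this, hu]
    have : (‖c‖ : ℂ) ≠ 0 := by exact_mod_cast hc0.ne'
    field_simp
  have hvz : ∀ z : ℂ, ‖v * z‖ = ‖z‖ := fun z => by rw [norm_mul, hvn, one_mul]
  have hβd : ∀ z : ℂ, ‖z‖ ≤ 1 → HasDerivAt (fun z => u * B0 q (v * z)) (K0 q (v * z)) z := by
    intro z hz
    have e1 : HasDerivAt (fun z : ℂ => v * z) (v * 1) z := (hasDerivAt_id z).const_mul v
    have e2 : HasDerivAt (B0 q) (K0 q (v * z)) (v * z) := B0_deriv (den0 hq0 hq1 (by rw [hvz]; exact hz))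
    refine ((e2.comp z e1).const_mul u).congr_deriv ?_
    rw [mul_one, mul_left_comm, huv, mul_one]
  have hcrit : ∀ z : ℂ, ‖z‖ < 1 → deriv (fun z => u * B0 q (v * z)) z = 0 → v * z = r := by
    intro z hz h
    rw [(hβd z hz.le).deriv, K0, div_eq_zero_iff] at h
    have hd := den0 hq0 hq1 (x := v * z) (by rw [hvz]; exact hz.le)
    have h1 : (q : ℂ) - 2 * (v * z) + q * (v * z) ^ 2 = 0 := by
      rcases h with h | h
      · exact h
      · exact absurd (pow_eq_zero_iff two_ne_zero |>.1 h) hd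
    have h2 : 2 * ((r : ℂ) * (v * z) - 1) * (v * z - r) = 0 := by
      have : 2 * ((r : ℂ) * (v * z) - 1) * (v * z - r) =
          (1 + (r:ℂ) ^ 2) * ((q : ℂ) - 2 * (v * z) + q * (v * z) ^ 2) +
          (2 * r - q * (1 + (r:ℂ)^2)) * (1 + (v * z) ^ 2) := by ring
      rw [this, h1, hqrC]; ring
    rcases mul_eq_zero.1 h2 with h3 | h3
    · exfalso
      have h4 : (r : ℂ) * (v * z) = 1 := by
        have := (mul_eq_zero.1 h3).resolve_left two_ne_zero
        exact sub_eq_zero.1 this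
      have h5 := congrArg norm h4
      rw [norm_mul, hvz, Complex.norm_real, Real.norm_eq_abs, abs_of_pos hr0, norm_one] at h5
      nlinarith [norm_nonneg z]
    · exact sub_eq_zero.1 h3
  refine ⟨fun z => u * B0 q (v * z), ⟨?_, ?_, ?_⟩, ?_, ?_, ?_, ?_⟩
  · intro z hz
    have hz' : ‖z‖ ≤ 1 := by simpa using hz
    have e1 : AnalyticAt ℂ (fun z : ℂ => v * z) z := by fun_prop
    have e2 : AnalyticAt ℂ (B0 q) (v * z) := B0_an hq0 hq1 (v * z) (by simpa [hvn] using hz')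
    exact analyticAt_const.mul (e2.comp e1)
  · intro z hz
    show ‖u * B0 q (v * z)‖ = 1
    rw [norm_mul, hun, one_mul, B0_norm hq0 hq1 (by rw [hvz]; exact hz)]
  · simp [B0]
  · rw [(hβd 0 (by simp)).deriv]
    simp [K0]
  · intro z hz h
    have h1 := hcrit z hz h
    show u * B0 q (v * z) = c
    rw [h1, ← huc, B0]
    have hd := den0 hq0 hq1 (x := (r:ℂ)) (by
      rw [Complex.norm_real, Real.norm_eq_abs, abs_of_pos hr0]; exact hr1.le)
    congr 1
    rw [div_eq_iff hd]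
    linear_combination (r:ℂ) * hqrC
  · intro z hz h
    have h1 := hcrit z hz h
    refine ⟨?_, ?_⟩
    · rw [← hvz z, h1, Complex.norm_real, Real.norm_eq_abs, abs_of_pos hr0]
    · have hd := den0 hq0 hq1 (x := (r:ℂ)) (by
        rw [Complex.norm_real, Real.norm_eq_abs, abs_of_pos hr0]; exact hr1.le)
      have hN : (q : ℂ) - 2 * r + q * (r:ℂ) ^ 2 = 0 := by linear_combination hqrC
      have e0 : deriv (fun z => u * B0 q (v * z)) =ᶠ[𝓝 z] fun z => K0 q (v * z) := by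
        filter_upwards [isOpen_ball.mem_nhds (show z ∈ ball (0:ℂ) 1 by simpa using hz)] with w hw
        exact (hβd w (by have : ‖w‖ < 1 := by simpa using hw
                         exact this.le)).deriv
      have e1 : HasDerivAt (fun x : ℂ => (q : ℂ) - 2 * x + q * x ^ 2)
          (0 - 2 * 1 + q * (((2:ℕ):ℂ) * (r:ℂ) ^ (2 - 1) * 1)) (r:ℂ) :=
        (((hasDerivAt_const (r:ℂ) (q:ℂ)).sub ((hasDerivAt_id (r:ℂ)).const_mul 2))).add
          (((hasDerivAt_id (r:ℂ)).pow 2).const_mul (q:ℂ))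
      have e2 : HasDerivAt (fun x : ℂ => ((1:ℂ) - q * x) ^ 2)
          (((2:ℕ):ℂ) * ((1:ℂ) - q * r) ^ (2 - 1) * (-(q * 1))) (r:ℂ) :=
        ((((hasDerivAt_id (r:ℂ)).const_mul (q:ℂ)).const_sub 1)).pow 2
      have e3 : HasDerivAt (K0 q) _ (r:ℂ) := e1.div e2 (pow_ne_zero 2 hd)
      have e4 : HasDerivAt (fun z : ℂ => v * z) (v * 1) z := (hasDerivAt_id z).const_mul v
      have e5 := HasDerivAt.comp z (h₂ := K0 q) (h := fun z => v * z) (by rw [h1]; exact e3) e4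
      rw [e0.deriv_eq]
      have e6 := e5.deriv
      simp only [Function.comp_def] at e6
      rw [e6, hN]
      have hv0 : v ≠ 0 := by rw [← norm_pos_iff, hvn]; exact one_pos
      have hnum : (0:ℂ) - 2 * 1 + q * (((2:ℕ):ℂ) * (r:ℂ) ^ (2 - 1) * 1) ≠ 0 := by
        intro hh
        apply hd
        have : (2:ℂ) * (1 - q * r) = 0 := by
          push_cast at hh
          linear_combination -hh
        exact (mul_eq_zero.1 this).resolve_left two_ne_zero
      simp only [zero_mul, sub_zero, mul_one]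
      refine mul_ne_zero (div_ne_zero (mul_ne_zero ?_ (pow_ne_zero 2 hd)) (pow_ne_zero 2 (pow_ne_zero 2 hd))) hv0
      simpa using hnum
  · intro x₀ s φ hφ hφ2 x₁ hx₁ z hz hβz
    -- rotate
    set ψ : ℂ → ℂ := fun x => v * φ x with hψ
    have hψn : ∀ x ∈ ball x₀ s, ‖ψ x‖ < 1 := fun x hx => by
      rw [hψ]; simp only [hvz]; exact (hφ2 x hx).1
    have hψd : DifferentiableOn ℂ ψ (ball x₀ s) := hφ.const_mul v
    have hψr : ∀ x ∈ ball x₀ s, ψ x ≠ (r:ℂ) ^ 2 := by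
      intro x hx h
      apply (hφ2 x hx).2
      rw [← huc, ← h, hψ]
      simp only
      rw [← mul_assoc, huv, one_mul]
    have hBz : B0 q (v * z) = ψ x₁ := by
      rw [hψ]; simp only
      rw [← hβz, ← mul_assoc, mul_comm v u, huv, one_mul]
    have hdz := den0 hq0 hq1 (x := v * z) (by rw [hvz]; exact hz.le)
    have hz1 : v * z * (q - v * z) = ψ x₁ * (1 - q * (v * z)) := by
      rw [← hBz, B0, div_mul_cancel₀ _ hdz]
    obtain ⟨S, hS1, hS2, hS3⟩ := exists_root (x₀ := x₀) (s := s)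
      (D := fun x => (q:ℂ) ^ 2 * (1 + ψ x) ^ 2 - 4 * ψ x)
      (((hψd.const_add 1).pow 2).const_mul _ |>.sub (hψd.const_mul 4))
      (by
        intro x hx h
        have h1 : 4 * (((r:ℂ)^2 * ψ x - 1) * (ψ x - (r:ℂ)^2)) = 0 := by
          have e : 4 * (((r:ℂ)^2 * ψ x - 1) * (ψ x - (r:ℂ)^2)) =
              (1 + (r:ℂ)^2)^2 * ((q:ℂ) ^ 2 * (1 + ψ x) ^ 2 - 4 * ψ x) +
              ((2 * (r:ℂ))^2 - ((q:ℂ) * (1 + (r:ℂ)^2))^2) * (1 + ψ x)^2 := by ring
          rw [e, h, hqrC]; ring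
        rcases mul_eq_zero.1 ((mul_eq_zero.1 h1).resolve_left (by norm_num)) with h2 | h2
        · have h3 := congrArg norm (sub_eq_zero.1 h2)
          rw [norm_mul, norm_pow, Complex.norm_real, Real.norm_eq_abs, abs_of_pos hr0, norm_one] at h3
          have h4 := hψn x hx
          nlinarith [norm_nonneg (ψ x)]
        · exact hψr x hx (sub_eq_zero.1 h2)) hx₁
      (y := 2 * (v * z) - q * (1 + ψ x₁)) (by linear_combination (-4 : ℂ) * hz1)
    have hroot : ∀ x ∈ ball x₀ s, ((q * (1 + ψ x) + S x) / 2) * (q - (q * (1 + ψ x) + S x) / 2) =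
        ψ x * (1 - q * ((q * (1 + ψ x) + S x) / 2)) := by
      intro x hx
      have := hS2 x hx
      linear_combination (-1/4 : ℂ) * this
    have hlt : ∀ x ∈ ball x₀ s, ‖(q * (1 + ψ x) + S x) / 2‖ < 1 := fun x hx =>
      root_lt hq0 hq1 (hψn x hx) (hroot x hx)
    refine ⟨fun x => u * ((q * (1 + ψ x) + S x) / 2), ?_, ?_, ?_⟩
    · exact (((hψd.const_add 1).const_mul _ |>.add hS1).div_const 2).const_mul u
    · intro x hx
      refine ⟨by rw [norm_mul, hun, one_mul]; exact hlt x hx, ?_⟩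
      show u * B0 q (v * (u * ((q * (1 + ψ x) + S x) / 2))) = φ x
      rw [← mul_assoc v u, mul_comm v u, huv, one_mul, B0, hroot x hx,
        mul_div_cancel_right₀ _ (den0 hq0 hq1 (hlt x hx).le), hψ]
      simp only
      rw [← mul_assoc, huv, one_mul]
    · simp only
      rw [hS3]
      have : (q * (1 + ψ x₁) + (2 * (v * z) - q * (1 + ψ x₁))) / 2 = v * z := by ring
      rw [this, ← mul_assoc, huv, one_mul]

end Pool.Agent.H27.BP
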