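import Pool.Agent.H27.BP.Seq

/-!
# B3: near identity
-/

set_option autoImplicit false

namespace Pool.Agent.H27.BP

open Complex Metric Set Filter Topology Pool.Agent.H5.BP

theorem near : S_near := by
  intro f ρ d hf hd hρd hd1 hρ z hz
  set h : ℂ → ℂ := dslope f 0 with hh
  have hb : ∀ w, ‖w‖ < 1 → ‖h w‖ ≤ 1 := by
    intro w hw
    have := Complex.norm_dslope_le_div_of_mapsTo_ball (f := f) (c := 0) (z := w) (R₁ := 1) (R₂ := 1)
      (fb_diff hf) (by rw [hf.zero]; exact fb_maps hf) (by simpa using hw)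
    simpa using this
  have h0 : h 0 = (d : ℂ) := by rw [hh, dslope_same, hd]
  have hdiff : DifferentiableOn ℂ h (ball (0:ℂ) 1) :=
    (Complex.differentiableOn_dslope (isOpen_ball.mem_nhds (by simp))).2 (fb_diff hf)
  have hfz : f z = z * h z := by
    have := sub_smul_dslope f 0 z
    rw [hf.zero] at this
    simpa [hh] using this.symm
  have h1z : 0 < 1 - ‖z‖ := by linarith
  have key : ‖h z - d‖ ≤ 2 * (1 - d) * ‖z‖ / (1 - ‖z‖) := by
    refine le_of_forall_pos_le_add fun ε hε => ?_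
    have hM : 0 < (1 - d) + ε * (1 - ‖z‖) / 2 := by
      have : 0 < ε * (1 - ‖z‖) / 2 := by positivity
      linarith
    have hbc := Complex.borelCaratheodory_zero (f := fun w => h w - d) (R := 1) (z := z) hM
      (hdiff.sub_const _) ?_ one_pos (by simpa using hz) (by simp [h0])
    · refine hbc.trans ?_
      have hz0 := norm_nonneg z
      have : 2 * ((1 - d) + ε * (1 - ‖z‖) / 2) * ‖z‖ / (1 - ‖z‖) =
          2 * (1 - d) * ‖z‖ / (1 - ‖z‖) + ε * ‖z‖ := by field_simp
      rw [this]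
      have : ε * ‖z‖ ≤ ε := by nlinarith
      linarith
    · intro w hw
      have hw' : ‖w‖ < 1 := by simpa using hw
      have h2 := (Complex.re_le_norm (h w)).trans (hb w hw')
      have h3 : 0 < ε * (1 - ‖z‖) / 2 := by positivity
      show (h w - d).re ≤ _
      simp only [sub_re, ofReal_re]
      linarith
  have h1 : ‖h z - 1‖ ≤ 2 * (1 - d) * ‖z‖ / (1 - ‖z‖) + (1 - d) := by
    calc ‖h z - 1‖ = ‖(h z - d) + ((d - 1 : ℝ) : ℂ)‖ := by push_cast; ring_nf
      _ ≤ ‖h z - d‖ + ‖((d - 1 : ℝ) : ℂ)‖ := norm_add_le _ _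
      _ ≤ _ := by
          rw [Complex.norm_real, Real.norm_eq_abs, abs_of_nonpos (by linarith)]
          linarith
  have h2 : 2 * (1 - d) * ‖z‖ / (1 - ‖z‖) + (1 - d) = (1 - d) * (1 + ‖z‖) / (1 - ‖z‖) := by
    field_simp; ring
  have h3 : (1 - d) * (1 + ‖z‖) / (1 - ‖z‖) ≤ 2 * (1 - ρ) / (1 - ‖z‖) := by
    apply div_le_div_of_nonneg_right _ h1z.le
    have hz0 := norm_nonneg z
    nlinarith
  calc ‖f z - z‖ = ‖z‖ * ‖h z - 1‖ := by rw [hfz, ← norm_mul]; ring_nf
    _ ≤ 1 * ‖h z - 1‖ := by gcongr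
    _ ≤ _ := by rw [one_mul]; linarith

end Pool.Agent.H27.BP
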