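import Pool.Agent.H5.BP.Stm

/-!
# B2: the osculation sequence
-/

set_option autoImplicit false

namespace Pool.Agent.H27.BP

open Complex Metric Set Filter Topology Pool.Agent.H5.BP

lemma fb_le {f : ℂ → ℂ} (hf : FB f) {z : ℂ} (hz : ‖z‖ ≤ 1) : ‖f z‖ ≤ 1 := by
  have hd : DiffContOnCl ℂ f (ball (0:ℂ) 1) := by
    apply DifferentiableOn.diffContOnCl
    rw [closure_ball (0:ℂ) one_ne_zero]
    exact hf.an.differentiableOn
  refine Complex.norm_le_of_forall_mem_frontier_norm_le (U := ball (0:ℂ) 1) isBounded_ball hd ?_ ?_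
  · intro w hw
    rw [frontier_ball (0:ℂ) one_ne_zero] at hw
    exact (hf.uni w (by simpa using hw)).le
  · rw [closure_ball (0:ℂ) one_ne_zero]
    simpa using hz

lemma fb_diff {f : ℂ → ℂ} (hf : FB f) : DifferentiableOn ℂ f (ball (0:ℂ) 1) :=
  hf.an.differentiableOn.mono ball_subset_closedBall

lemma fb_diffAt {f : ℂ → ℂ} (hf : FB f) {z : ℂ} (hz : ‖z‖ ≤ 1) : DifferentiableAt ℂ f z :=
  (hf.an z (by simpa using hz)).differentiableAt

lemma fb_maps {f : ℂ → ℂ} (hf : FB f) : MapsTo f (ball (0:ℂ) 1) (closedBall 0 1) := by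
  intro z hz
  have hz' : ‖z‖ < 1 := by simpa using hz
  simpa using fb_le hf hz'.le

lemma fb_schwarz {f : ℂ → ℂ} (hf : FB f) {z : ℂ} (hz : ‖z‖ < 1) : ‖f z‖ ≤ ‖z‖ :=
  Complex.norm_le_norm_of_mapsTo_ball (fb_diff hf) (fb_maps hf) hf.zero hz

lemma fb_lt {f : ℂ → ℂ} (hf : FB f) {z : ℂ} (hz : ‖z‖ < 1) : ‖f z‖ < 1 :=
  (fb_schwarz hf hz).trans_lt hz

lemma fb_deriv {f : ℂ → ℂ} (hf : FB f) : ‖deriv f 0‖ ≤ 1 := by
  refine Complex.norm_deriv_le_one_of_mapsTo_ball (R := 1) (fb_diff hf) ?_ one_pos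
  rw [hf.zero]; exact fb_maps hf

lemma fb_id : FB (fun z => z) := ⟨fun _ _ => analyticAt_id, fun _ hz => hz, rfl⟩

lemma fb_comp {f g : ℂ → ℂ} (hf : FB f) (hg : FB g) : FB (fun z => f (g z)) := by
  refine ⟨?_, ?_, ?_⟩
  · intro z hz
    have hz' : ‖z‖ ≤ 1 := by simpa using hz
    have h1 : AnalyticAt ℂ f (g z) := hf.an (g z) (by simpa using fb_le hg hz')
    exact h1.comp (hg.an z hz)
  · intro z hz; exact hf.uni _ (hg.uni z hz)
  · simp only [hg.zero, hf.zero]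

/-- The factor `2√t/(1+t)`. -/
noncomputable def q (t : ℝ) : ℝ := 2 * √t / (1 + t)

lemma one_sub_q {t : ℝ} (ht : 0 ≤ t) : 1 - q t = (1 - √t) ^ 2 / (1 + t) := by
  have h : √t ^ 2 = t := Real.sq_sqrt ht
  unfold q
  have h1 : (1 + t) ≠ 0 := by positivity
  field_simp
  nlinarith

lemma q_le {t : ℝ} (ht : 0 ≤ t) : q t ≤ 1 := by
  have h := one_sub_q ht
  have h2 : 0 ≤ (1 - √t) ^ 2 / (1 + t) := by positivity
  linarith

lemma q_pos {t : ℝ} (ht : 0 < t) : 0 < q t := by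
  unfold q; positivity

/-- The inductive property. -/
def Inv (A : Set ℂ) (ψ : ℂ → ℂ) : Prop :=
  ∀ (x₀ : ℂ) (s : ℝ), ball x₀ s ⊆ ball 0 1 → (∀ x ∈ ball x₀ s, x ∉ A) →
    ∀ z, ‖z‖ < 1 → ψ z ∈ ball x₀ s → ∃ g : ℂ → ℂ, DifferentiableOn ℂ g (ball x₀ s) ∧
      (∀ x ∈ ball x₀ s, ‖g x‖ < 1 ∧ ψ (g x) = x) ∧ g (ψ z) = z

structure St (A : Set ℂ) (ψ : ℂ → ℂ) : Prop where
  fb : FB ψ
  der : ∃ d : ℝ, deriv ψ 0 = (d : ℂ) ∧ 0 < d
  inv : Inv A ψ

lemma st_id (A : Set ℂ) : St A (fun z => z) := by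
  refine ⟨fb_id, ⟨1, by simp, one_pos⟩, ?_⟩
  intro x₀ s h1 h2 z hz hz'
  refine ⟨fun x => x, differentiableOn_id, ?_, rfl⟩
  intro x hx
  exact ⟨by simpa using h1 hx, rfl⟩

lemma deriv_comp0 {f g : ℂ → ℂ} (hf : FB f) (hg : FB g) :
    deriv (fun z => f (g z)) 0 = deriv f 0 * deriv g 0 := by
  have h1 : DifferentiableAt ℂ f (g 0) := by rw [hg.zero]; exact fb_diffAt hf (by simp)
  have h2 : DifferentiableAt ℂ g 0 := fb_diffAt hg (by simp)
  have := deriv_comp (0:ℂ) h1 h2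
  rw [hg.zero] at this
  exact this

lemma step (hb : S_beta) {A : Set ℂ} {ρ : ℝ} (hA : A.Finite) (hρ : 0 < ρ)
    (hA' : ∀ z ∈ A, ρ ≤ ‖z‖ ∧ ‖z‖ < 1) {ψ : ℂ → ℂ} (h : St A ψ) :
    ∃ (β : ℂ → ℂ) (t : ℝ), FB β ∧ 0 < t ∧ t ≤ 1 ∧ deriv β 0 = ((q t : ℝ) : ℂ) ∧
      (∀ z, ‖z‖ < 1 → ψ z ∈ A → t ≤ ‖z‖) ∧ St A (fun z => ψ (β z)) := by
  by_cases hne : ∃ z, ‖z‖ < 1 ∧ ψ z ∈ A
  · obtain ⟨z₀, hz₀, hz₀A⟩ := hne
    have hcont : ContinuousOn ψ (closedBall (0:ℂ) ‖z₀‖) := by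
      intro z hz
      have : ‖z‖ ≤ ‖z₀‖ := by simpa using hz
      exact (fb_diffAt h.fb (this.trans hz₀.le)).continuousAt.continuousWithinAt
    have hcl : IsClosed (closedBall (0:ℂ) ‖z₀‖ ∩ ψ ⁻¹' A) :=
      hcont.preimage_isClosed_of_isClosed isClosed_closedBall hA.isClosed
    have hcomp : IsCompact (closedBall (0:ℂ) ‖z₀‖ ∩ ψ ⁻¹' A) :=
      (isCompact_closedBall (0:ℂ) ‖z₀‖).of_isClosed_subset hcl inter_subset_left
    obtain ⟨c, hc, hcmin⟩ := hcomp.exists_isMinOn ⟨z₀, by simp, hz₀A⟩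
      (f := fun z : ℂ => ‖z‖) continuous_norm.continuousOn
    have hc1 : ‖c‖ ≤ ‖z₀‖ := by simpa using hc.1
    have hcA : ψ c ∈ A := hc.2
    have hc0 : c ≠ 0 := by
      rintro rfl
      rw [h.fb.zero] at hcA
      have := (hA' 0 hcA).1
      simp at this; linarith
    have hcpos : 0 < ‖c‖ := norm_pos_iff.2 hc0
    have hclt : ‖c‖ < 1 := hc1.trans_lt hz₀
    obtain ⟨β, hβ, hβd, -, -, hlift⟩ := hb c hcpos hclt
    refine ⟨β, ‖c‖, hβ, hcpos, hclt.le, hβd, ?_, ?_⟩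
    · intro z hz hzA
      by_cases hzz : ‖z‖ ≤ ‖z₀‖
      · exact hcmin (show z ∈ closedBall (0:ℂ) ‖z₀‖ ∩ ψ ⁻¹' A from ⟨by simpa using hzz, hzA⟩)
      · push Not at hzz
        linarith
    · refine ⟨fb_comp h.fb hβ, ?_, ?_⟩
      · obtain ⟨d, hd, hd0⟩ := h.der
        refine ⟨d * q ‖c‖, ?_, mul_pos hd0 (q_pos hcpos)⟩
        rw [deriv_comp0 h.fb hβ, hd, hβd]
        unfold q
        push_cast
        ring
      · intro x₀ s hs1 hs2 z hz hzm
        obtain ⟨g, hg1, hg2, hg3⟩ := h.inv x₀ s hs1 hs2 (β z) (fb_lt hβ hz) hzm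
        obtain ⟨φ', h1, h2, h3⟩ := hlift x₀ s g hg1 (fun x hx => ⟨(hg2 x hx).1, by
          intro hcc
          have h4 := (hg2 x hx).2
          rw [hcc] at h4
          rw [h4] at hcA
          exact hs2 x hx hcA⟩) (ψ (β z)) hzm z hz hg3.symm
        refine ⟨φ', h1, ?_, h3⟩
        intro x hx
        refine ⟨(h2 x hx).1, ?_⟩
        show ψ (β (φ' x)) = x
        rw [(h2 x hx).2]; exact (hg2 x hx).2
  · refine ⟨fun z => z, 1, fb_id, one_pos, le_rfl, ?_, ?_, h⟩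
    · simp [q]
      norm_num
    · intro z hz hzA
      exact absurd ⟨z, hz, hzA⟩ hne

lemma der_ge {A : Set ℂ} {ρ : ℝ} (hρ : 0 < ρ) (hρ1 : ρ < 1)
    (hA' : ∀ z ∈ A, ρ ≤ ‖z‖ ∧ ‖z‖ < 1) {ψ : ℂ → ℂ} (h : St A ψ) {d : ℝ}
    (hd : deriv ψ 0 = (d : ℂ)) (hd0 : 0 < d) : ρ ≤ d ∧ d ≤ 1 := by
  have hdn : ‖deriv ψ 0‖ = d := by rw [hd]; simp [abs_of_pos hd0]
  refine ⟨?_, by rw [← hdn]; exact fb_deriv h.fb⟩
  obtain ⟨g, hg1, hg2, hg3⟩ := h.inv 0 ρ (ball_subset_ball hρ1.le) (fun x hx hxA => by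
    have h1 := (hA' x hxA).1
    have h2 : ‖x‖ < ρ := by simpa using hx
    linarith) 0 (by simp) (by rw [h.fb.zero]; simpa using hρ)
  rw [h.fb.zero] at hg3
  have hgd : ‖deriv g 0‖ ≤ 1 / ρ := by
    refine Complex.norm_deriv_le_div_of_mapsTo_ball hg1 ?_ hρ
    rw [hg3]
    intro x hx
    simpa using (hg2 x hx).1.le
  have hgat : DifferentiableAt ℂ g 0 :=
    (hg1 0 (by simpa using hρ)).differentiableAt (ball_mem_nhds _ hρ)
  have hcomp : deriv (fun x => ψ (g x)) 0 = deriv ψ 0 * deriv g 0 := by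
    have h1 : DifferentiableAt ℂ ψ (g 0) := by rw [hg3]; exact fb_diffAt h.fb (by simp)
    have := deriv_comp (0:ℂ) h1 hgat
    rw [hg3] at this
    exact this
  have heq : (fun x => ψ (g x)) =ᶠ[𝓝 0] fun x => x := by
    filter_upwards [ball_mem_nhds (0:ℂ) hρ] with x hx
    exact (hg2 x hx).2
  have h1 : deriv (fun x => ψ (g x)) 0 = 1 := by
    rw [heq.deriv_eq]; simp
  rw [h1] at hcomp
  have h2 : (1:ℝ) = d * ‖deriv g 0‖ := by
    have := congrArg norm hcomp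
    rw [norm_mul, hdn] at this
    simpa using this
  have h3 : 1 ≤ d * (1 / ρ) := by
    calc (1:ℝ) = d * ‖deriv g 0‖ := h2
      _ ≤ d * (1 / ρ) := mul_le_mul_of_nonneg_left hgd hd0.le
  have h4 : d * (1 / ρ) = d / ρ := by ring
  rw [h4, le_div_iff₀ hρ] at h3
  linarith

lemma lip {f : ℂ → ℂ} (hf : FB f) {r : ℝ} (hr : r < 1) {z w : ℂ} (hz : ‖z‖ ≤ r)
    (hw : ‖w‖ ≤ r) : ‖f z - f w‖ ≤ 1 / (1 - r) * ‖z - w‖ := by
  have hr' : 0 < 1 - r := by linarith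
  refine Convex.norm_image_sub_le_of_norm_deriv_le (s := closedBall (0:ℂ) r) (f := f) ?_ ?_
    (convex_closedBall _ _) (by simpa using hw) (by simpa using hz)
  · intro x hx
    have : ‖x‖ ≤ r := by simpa using hx
    exact fb_diffAt hf (by linarith)
  · intro x hx
    have hx' : ‖x‖ ≤ r := by simpa using hx
    have key : ∀ y ∈ closedBall x (1 - r), ‖y‖ ≤ 1 := by
      intro y hy
      have h1 : ‖y - x‖ ≤ 1 - r := by simpa [dist_eq_norm] using hy
      calc ‖y‖ = ‖(y - x) + x‖ := by ring_nf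
        _ ≤ ‖y - x‖ + ‖x‖ := norm_add_le _ _
        _ ≤ 1 := by linarith
    refine Complex.norm_deriv_le_of_forall_mem_sphere_norm_le hr' ?_ ?_
    · apply DifferentiableOn.diffContOnCl
      rw [closure_ball x hr'.ne']
      intro y hy
      exact (fb_diffAt hf (key y hy)).differentiableWithinAt
    · intro y hy
      exact fb_le hf (key y (sphere_subset_closedBall hy))

theorem seq (hb : S_beta) (hn : S_near) : S_seq := by
  intro A ρ hA hρ hρ1 hA'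
  classical
  choose! β t hβ ht0 ht1 hβd hfar hst using fun (ψ : ℂ → ℂ) (h : St A ψ) =>
    step hb hA hρ hA' h
  -- the sequence
  let F : ℕ → {ψ : ℂ → ℂ // St A ψ} := fun n =>
    Nat.rec ⟨fun z => z, st_id A⟩ (fun _ ψ => ⟨fun z => ψ.1 (β ψ.1 z), hst ψ.1 ψ.2⟩) n
  have hF : ∀ n z, (F (n+1)).1 z = (F n).1 (β (F n).1 z) := fun n z => rfl
  have hFs : ∀ n, (F (n+1)).1 = fun z => (F n).1 (β (F n).1 z) := fun n => rfl
  choose d hd hd0 using fun n => (F n).2.der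
  have hdb : ∀ n, ρ ≤ d n ∧ d n ≤ 1 := fun n => der_ge hρ hρ1 hA' (F n).2 (hd n) (hd0 n)
  set T : ℕ → ℝ := fun n => t (F n).1 with hT
  have hT0 : ∀ n, 0 < T n := fun n => ht0 _ (F n).2
  have hT1 : ∀ n, T n ≤ 1 := fun n => ht1 _ (F n).2
  have hFB : ∀ n, FB (β (F n).1) := fun n => hβ _ (F n).2
  have hdd : ∀ n, d (n+1) = d n * q (T n) := by
    intro n
    have h1 := hd (n+1)
    rw [hFs, deriv_comp0 (F n).2.fb (hFB n), hd n, hβd _ (F n).2] at h1
    have h2 : ((d n * q (T n) : ℝ) : ℂ) = ((d (n+1) : ℝ) : ℂ) := by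
      push_cast; exact h1
    exact (Complex.ofReal_injective h2).symm
  have hq1 : ∀ n, 0 ≤ 1 - q (T n) := fun n => by
    have := q_le (hT0 n).le; linarith
  have hbd : ∀ n, ρ * (1 - q (T n)) ≤ d n - d (n+1) := by
    intro n
    rw [hdd n]
    have := mul_le_mul_of_nonneg_right (hdb n).1 (hq1 n)
    linarith
  have hsum : Summable fun n => 1 - q (T n) := by
    refine summable_of_sum_range_le (c := 1 / ρ) hq1 ?_
    intro n
    have h1 : ∑ i ∈ Finset.range n, ρ * (1 - q (T i)) ≤ d 0 - d n := by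
      calc ∑ i ∈ Finset.range n, ρ * (1 - q (T i)) ≤ ∑ i ∈ Finset.range n, (d i - d (i+1)) :=
            Finset.sum_le_sum fun i _ => hbd i
        _ = d 0 - d n := Finset.sum_range_sub' d n
    rw [← Finset.mul_sum] at h1
    rw [le_div_iff₀ hρ]
    have h2 := (hdb 0).2
    have h3 := hd0 n
    linarith
  refine ⟨fun n => (F n).1, ⟨fun n => (F n).2.fb, fun n => ⟨d n, hd n, (hdb n).1, (hdb n).2⟩,
    fun n => (F n).2.inv, ?_, ?_⟩⟩
  · -- far
    intro ρ' hρ'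
    have hex : ∃ m, ρ' < T m := by
      by_contra hcon
      push Not at hcon
      have hρ0 : 0 < ρ' := (hT0 0).trans_le (hcon 0)
      have hs : √ρ' < 1 := by
        rw [Real.sqrt_lt' one_pos]; simpa using hρ'
      have hlow : ∀ n, (1 - √ρ') ^ 2 / 2 ≤ 1 - q (T n) := by
        intro n
        rw [one_sub_q (hT0 n).le]
        have h1 : √(T n) ≤ √ρ' := Real.sqrt_le_sqrt (hcon n)
        have h2 : (1 - √ρ') ^ 2 ≤ (1 - √(T n)) ^ 2 := by
          apply pow_le_pow_left₀ <;> linarith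
        apply div_le_div₀ (by positivity) h2 (by linarith [hT0 n]) (by linarith [hT1 n])
      have hz := hsum.tendsto_atTop_zero
      have h3 : (1 - √ρ') ^ 2 / 2 ≤ 0 := ge_of_tendsto hz (Eventually.of_forall hlow)
      have h4 : 0 < (1 - √ρ') ^ 2 := by
        have : 0 < 1 - √ρ' := by linarith
        positivity
      linarith
    obtain ⟨m₀, hm₀⟩ := hex
    refine ⟨m₀, ?_⟩
    intro m hm
    induction m, hm using Nat.le_induction with
    | base =>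
      intro z hz hzA
      exact hm₀.trans_le (hfar _ (F m₀).2 z hz hzA)
    | succ m hm ih =>
      intro z hz hzA
      have h1 := ih (β (F m).1 z) (fb_lt (hFB m) hz) hzA
      exact h1.trans_le (fb_schwarz (hFB m) hz)
  · -- lim
    refine ⟨fun z => z + ∑' n, ((F (n+1)).1 z - (F n).1 z), ?_⟩
    have key : ∀ r : ℝ, 0 < r → r < 1 → ∀ n, ∀ z ∈ ball (0:ℂ) r,
        ‖(F (n+1)).1 z - (F n).1 z‖ ≤ (2 / (1 - r) ^ 2) * (1 - q (T n)) := by
      intro r hr0 hr n z hz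
      have hz' : ‖z‖ < r := by simpa using hz
      have hr' : 0 < 1 - r := by linarith
      rw [hF]
      have h1 := lip (F n).2.fb hr (z := β (F n).1 z) (w := z)
        ((fb_schwarz (hFB n) (by linarith)).trans hz'.le) hz'.le
      have h2 := hn (β (F n).1) (q (T n)) (q (T n)) (hFB n) (hβd _ (F n).2) le_rfl
        (q_le (hT0 n).le) (q_pos (hT0 n)) z (by linarith)
      have h3 : 2 * (1 - q (T n)) / (1 - ‖z‖) ≤ 2 * (1 - q (T n)) / (1 - r) := by
        apply div_le_div_of_nonneg_left _ hr' (by linarith)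
        have := hq1 n; linarith
      calc ‖(F n).1 (β (F n).1 z) - (F n).1 z‖ ≤ 1 / (1 - r) * ‖β (F n).1 z - z‖ := h1
        _ ≤ 1 / (1 - r) * (2 * (1 - q (T n)) / (1 - r)) := by
            apply mul_le_mul_of_nonneg_left (h2.trans h3) (by positivity)
        _ = (2 / (1 - r) ^ 2) * (1 - q (T n)) := by
            field_simp
    have hunif : ∀ r : ℝ, 0 < r → r < 1 →
        TendstoUniformlyOn (fun n => (F n).1) (fun z => z + ∑' n, ((F (n+1)).1 z - (F n).1 z))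
          atTop (ball (0:ℂ) r) := by
      intro r hr0 hr
      have h1 := tendstoUniformlyOn_tsum_nat (hsum.mul_left (2 / (1 - r) ^ 2)) (key r hr0 hr)
      rw [Metric.tendstoUniformlyOn_iff] at h1 ⊢
      intro ε hε
      filter_upwards [h1 ε hε] with N hN z hz
      have h2 := hN z hz
      rw [dist_eq_norm] at h2 ⊢
      have h3 : ∑ n ∈ Finset.range N, ((F (n+1)).1 z - (F n).1 z) = (F N).1 z - z :=
        Finset.sum_range_sub (fun n => (F n).1 z) N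
      rw [h3] at h2
      calc ‖z + ∑' n, ((F (n+1)).1 z - (F n).1 z) - (F N).1 z‖
          = ‖∑' n, ((F (n+1)).1 z - (F n).1 z) - ((F N).1 z - z)‖ := by ring_nf
        _ < ε := h2
    intro u hu x hx
    have hx' : ‖x‖ < 1 := by simpa using hx
    have hx0 := norm_nonneg x
    refine ⟨ball 0 ((1 + ‖x‖) / 2), mem_nhdsWithin_of_mem_nhds
      (isOpen_ball.mem_nhds (by simp; linarith)), ?_⟩
    exact hunif ((1 + ‖x‖) / 2) (by linarith) (by linarith) u hu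

end Pool.Agent.H27.BP
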